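import Mathlib

/-!
Semicomplete digraphs of connectivity `2k-2` without a spanning `k`-connected oriented
subdigraph (helper98).

Vertices `0, ..., n-1`; with `m = 2k-2` all arcs are present except those from `Y = {i < m}` to
the other vertices that are not of the form `i -> i + m`.
-/

set_option autoImplicit false

namespace Pool.MP0a002eH98

open Finset

/-- the arcs of the example -/
def Arc (n m : ℕ) (a b : Fin n) : Prop :=
  a ≠ b ∧ (a.1 < m → m ≤ b.1 → b.1 = a.1 + m)

theorem arc_total {n m : ℕ} {a b : Fin n} (h : a ≠ b) : Arc n m a b ∨ Arc n m b a := by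
  by_cases h1 : a.1 < m → m ≤ b.1 → b.1 = a.1 + m
  · exact Or.inl ⟨h, h1⟩
  · push Not at h1
    obtain ⟨h2, h3, -⟩ := h1
    exact Or.inr ⟨h.symm, fun h4 => absurd h4 (by omega)⟩

/-- the example is `m`-connected -/
theorem arc_conn {n m : ℕ} (hn : 2 * m ≤ n) (S : Finset (Fin n)) (hS : S.card < m)
    (u v : Fin n) (hu : u ∉ S) (hv : v ∉ S) :
    Relation.ReflTransGen (fun a b => Arc n m a b ∧ a ∉ S ∧ b ∉ S) u v := by
  have hone : ∀ a b : Fin n, a ∉ S → b ∉ S → (a.1 < m → m ≤ b.1 → b.1 = a.1 + m) →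
      Relation.ReflTransGen (fun a b => Arc n m a b ∧ a ∉ S ∧ b ∉ S) a b := by
    intro a b ha hb hab
    by_cases h : a = b
    · rw [h]
    · exact Relation.ReflTransGen.single ⟨⟨h, hab⟩, ha, hb⟩
  by_cases h : u.1 < m → m ≤ v.1 → v.1 = u.1 + m
  · exact hone u v hu hv h
  · push Not at h
    obtain ⟨h1, h2, -⟩ := h
    -- a surviving pair
    obtain ⟨i, hi1, hi2⟩ : ∃ i : Fin m, (⟨i.1, by omega⟩ : Fin n) ∉ S ∧
        (⟨i.1 + m, by omega⟩ : Fin n) ∉ S := by
      by_contra hcon
      push Not at hcon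
      have hf : ∀ i : Fin m, ∃ s ∈ S, s.1 = i.1 ∨ s.1 = i.1 + m := by
        intro i
        by_cases h3 : (⟨i.1, by omega⟩ : Fin n) ∈ S
        · exact ⟨_, h3, Or.inl rfl⟩
        · exact ⟨_, hcon i h3, Or.inr rfl⟩
      choose f hf1 hf2 using hf
      have hinj : Set.InjOn f (univ : Finset (Fin m)) := by
        intro i _ j _ hij
        have h3 := hf2 i
        have h4 := hf2 j
        rw [hij] at h3
        have h5 := i.2
        have h6 := j.2
        exact Fin.ext (by omega)
      have hle := card_le_card_of_injOn f (fun i _ => hf1 i) hinj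
      rw [card_univ, Fintype.card_fin] at hle
      omega
    have h3 := i.2
    refine (hone u ⟨i.1, by omega⟩ hu hi1 ?_).trans
      ((hone _ ⟨i.1 + m, by omega⟩ hi1 hi2 ?_).trans (hone _ v hi2 hv ?_))
    · intro _ h5
      exact absurd h5 (by simp)
    · intro _ _
      rfl
    · intro h5
      exact absurd h5 (by simp)

/-- in a `k`-connected digraph on more than `k` vertices all out-degrees are at least `k` -/
theorem outdeg {n k : ℕ} (hn : k < n) (H : Fin n → Fin n → Prop) [DecidableRel H]
    (hH : ∀ S : Finset (Fin n), S.card < k → ∀ u v : Fin n, u ∉ S → v ∉ S →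
      Relation.ReflTransGen (fun a b => H a b ∧ a ∉ S ∧ b ∉ S) u v)
    (hirr : ∀ a, ¬ H a a) (y : Fin n) : k ≤ (univ.filter fun b => H y b).card := by
  by_contra hcon
  push Not at hcon
  set S := univ.filter fun b => H y b with hSdef
  have hy : y ∉ S := by
    rw [hSdef, mem_filter]
    exact fun h => hirr y h.2
  obtain ⟨v, hv⟩ : ∃ v, v ∉ insert y S := by
    by_contra h
    push Not at h
    have h1 : (univ : Finset (Fin n)) ⊆ insert y S := fun v _ => h v
    have h2 := card_le_card h1
    have h3 := card_insert_le y S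
    rw [card_univ, Fintype.card_fin] at h2
    omega
  rw [mem_insert, not_or] at hv
  have h1 := hH S hcon y v hy hv.2
  rcases Relation.ReflTransGen.cases_head h1 with h2 | ⟨c, h2, -⟩
  · exact hv.1 h2.symm
  · exact h2.2.2 (by rw [hSdef, mem_filter]; exact ⟨mem_univ _, h2.1⟩)

/-- the example has no spanning `k`-connected oriented subdigraph -/
theorem no_orientation {n k : ℕ} (hk : 2 ≤ k) (hn : k < n) (H : Fin n → Fin n → Prop)
    (hsub : ∀ a b, H a b → Arc n (2 * k - 2) a b) (hor : ∀ a b, H a b → ¬ H b a)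
    (hH : ∀ S : Finset (Fin n), S.card < k → ∀ u v : Fin n, u ∉ S → v ∉ S →
      Relation.ReflTransGen (fun a b => H a b ∧ a ∉ S ∧ b ∉ S) u v)
    (h2n : 2 * k - 2 ≤ n) : False := by
  classical
  set m := 2 * k - 2 with hm
  let Y : Finset (Fin n) := univ.filter fun a => a.1 < m
  have hYcard : Y.card = m := by
    have h1 : Y = (univ : Finset (Fin m)).map (Fin.castLEEmb h2n) := by
      ext a
      simp only [Y, mem_filter, mem_univ, true_and, mem_map, Fin.castLEEmb_apply]
      constructor
      · intro h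
        exact ⟨⟨a.1, h⟩, rfl⟩
      · rintro ⟨i, rfl⟩
        exact i.2
    rw [h1, card_map, card_univ, Fintype.card_fin]
  have hirr : ∀ a, ¬ H a a := fun a h => (hsub a a h).1 rfl
  -- out-degrees inside `Y`
  have hin : ∀ y ∈ Y, k - 1 ≤ (Y.filter fun b => H y b).card := by
    intro y hy
    have hy' : y.1 < m := (mem_filter.1 hy).2
    have h1 := outdeg hn H hH hirr y
    have h2 : (univ.filter fun b => H y b) ⊆
        (Y.filter fun b => H y b) ∪ univ.filter fun b => b.1 = y.1 + m := by
      intro b hb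
      have hb' := (mem_filter.1 hb).2
      rw [mem_union]
      by_cases h3 : b.1 < m
      · exact Or.inl (mem_filter.2 ⟨mem_filter.2 ⟨mem_univ _, h3⟩, hb'⟩)
      · exact Or.inr (mem_filter.2 ⟨mem_univ _, (hsub y b hb').2 hy' (by omega)⟩)
    have h3 : (univ.filter fun b : Fin n => b.1 = y.1 + m).card ≤ 1 := by
      rw [card_le_one]
      intro a ha b hb
      have ha' := (mem_filter.1 ha).2
      have hb' := (mem_filter.1 hb).2
      exact Fin.ext (by omega)
    have h4 := card_le_card h2
    have h5 := card_union_le (Y.filter fun b => H y b) (univ.filter fun b => b.1 = y.1 + m)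
    omega
  -- double counting of the arcs inside `Y`
  let P : Finset (Fin n × Fin n) := (Y ×ˢ Y).filter fun p => H p.1 p.2
  let Q : Finset (Fin n × Fin n) := (Y ×ˢ Y).filter fun p => H p.2 p.1
  have hPQ : P.card = Q.card := by
    refine card_bij (fun p _ => p.swap) ?_ ?_ ?_
    · intro p hp
      rw [mem_filter, mem_product] at hp ⊢
      exact ⟨⟨hp.1.2, hp.1.1⟩, hp.2⟩
    · intro p _ q _ h
      exact Prod.swap_injective h
    · intro p hp
      refine ⟨p.swap, ?_, Prod.swap_swap p⟩
      rw [mem_filter, mem_product] at hp ⊢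
      exact ⟨⟨hp.1.2, hp.1.1⟩, hp.2⟩
  have hdisj : Disjoint P Q := by
    rw [disjoint_left]
    intro p hp hq
    exact hor _ _ (mem_filter.1 hp).2 (mem_filter.1 hq).2
  have hsubset : P ∪ Q ⊆ Y.offDiag := by
    intro p hp
    rw [mem_union, mem_filter, mem_filter, mem_product] at hp
    rw [mem_offDiag]
    rcases hp with hp | hp
    · exact ⟨hp.1.1, hp.1.2, (hsub _ _ hp.2).1⟩
    · exact ⟨hp.1.1, hp.1.2, (hsub _ _ hp.2).1.symm⟩
  have h1 := card_le_card hsubset
  rw [card_union_of_disjoint hdisj, offDiag_card, hYcard] at h1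
  have hPsum : P.card = ∑ y ∈ Y, (Y.filter fun b => H y b).card := by
    rw [card_filter, sum_product]
    refine sum_congr rfl fun y _ => ?_
    rw [card_filter]
  have hPge : m * (k - 1) ≤ P.card := by
    rw [hPsum, ← hYcard, ← smul_eq_mul]
    exact card_nsmul_le_sum Y _ _ hin
  obtain ⟨j, rfl⟩ : ∃ j, k = j + 2 := ⟨k - 2, by omega⟩
  have hm' : m = 2 * j + 2 := by omega
  rw [hm'] at h1 hPge
  have h2 : j + 2 - 1 = j + 1 := by omega
  rw [h2] at hPge
  have h3 : (2 * j + 2) * (2 * j + 2) - (2 * j + 2) = (2 * j + 2) * (2 * j + 1) := by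
    have : (2 * j + 2) * (2 * j + 2) = (2 * j + 2) * (2 * j + 1) + (2 * j + 2) := by ring
    omega
  rw [h3] at h1
  nlinarith

end Pool.MP0a002eH98
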